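import Pool.Agent.TH745.MN.Tb

/-! Leading coefficients at several nodes (job MN-9). -/

set_option autoImplicit false

namespace Pool.Agent.TH236.MN

open Pool.Agent.TH745.MN Pool.Agent.TH603.EL Pool.Agent.TH603.EL.Scal2 Pool.Agent.TH793.NG
  Pool.Agent.TH176.Nag Pool.Agent.TH603.Sur

section edge
variable {F : Type} [Field F] {a b s c : ℝ} {x : HR F}

theorem phi_bar (d : F) (c : ℝ) (A : Polynomial (HK F)) :
    phi d (bar c A) = ∑ k ∈ Finset.range (A.natDegree + 1),
      PowerSeries.C ((A.coeff k).coeff c) * (PowerSeries.C d + PowerSeries.X) ^ k := by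
  unfold bar
  rw [map_sum]
  refine Finset.sum_congr rfl fun k _ => ?_
  show Polynomial.eval₂ _ _ _ = _
  rw [Polynomial.eval₂_monomial]

theorem Ep_evA' (ha : 0 < a) (hb : 0 < b) (hs : 0 < s) {A : Polynomial (HK F)}
    (hA : ∀ k, Low (A.coeff k) c) (hx : Mc a b s 0 x) {d : F}
    (hX : Ep a 0 x = PowerSeries.C d + PowerSeries.X) :
    Ep a c (evA x A) = phi d (bar c A) := by
  unfold evA
  rw [Polynomial.eval₂_eq_sum_range, Ep_sum, phi_bar]
  refine Finset.sum_congr rfl fun k _ => ?_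
  have h2 := Ep_mul ha hb hs (Mc.incl (a := a) (b := b) (s := s) (hA k)) (hx.pow k)
  rw [add_zero, Ep_incl ha, Ep_pow ha hb hs hx, hX] at h2
  exact h2

theorem Em_evA' (ha : 0 < a) (hb : 0 < b) (hs : 0 < s) {A : Polynomial (HK F)}
    (hA : ∀ k, Low (A.coeff k) c) (hx : Mc a b s 0 x) {d : F}
    (hX : Em b 0 x = PowerSeries.C d + PowerSeries.X) :
    Em b c (evA x A) = phi d (bar c A) := by
  unfold evA
  rw [Polynomial.eval₂_eq_sum_range, Em_sum, phi_bar]
  refine Finset.sum_congr rfl fun k _ => ?_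
  have h2 := Em_mul ha hb hs (Mc.incl (a := a) (b := b) (s := s) (hA k)) (hx.pow k)
  rw [add_zero, Em_incl hb, Em_pow ha hb hs hx, hX] at h2
  exact h2

theorem phi_eq (d : F) (N : Polynomial F) :
    phi d N = ((N.comp (Polynomial.X + Polynomial.C d) : Polynomial F) : PowerSeries F) := by
  have h : phi d = (Polynomial.coeToPowerSeries.ringHom (R := F)).comp
      (Polynomial.compRingHom (Polynomial.X + Polynomial.C d)) := by
    refine Polynomial.ringHom_ext (fun a => ?_) ?_
    · show Polynomial.eval₂ _ _ _ = _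
      rw [Polynomial.eval₂_C]
      simp
    · show Polynomial.eval₂ _ _ _ = _
      rw [Polynomial.eval₂_X]
      simp [add_comm]
  rw [h]; rfl

theorem dvd_of_phi {d : F} {N : Polynomial F} {n : ℕ} (h : PowerSeries.X ^ n ∣ phi d N) :
    (Polynomial.X - Polynomial.C d) ^ n ∣ N := by
  rw [Polynomial.X_sub_C_pow_dvd_iff, Polynomial.X_pow_dvd_iff]
  rw [phi_eq, PowerSeries.X_pow_dvd_iff] at h
  intro k hk
  have := h k hk
  rwa [Polynomial.coeff_coe] at this

end edge

section norm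
variable {F : Type} [Field F]

theorem nrm_ne {Rb : Polynomial F} (hodd : Odd Rb.natDegree) (A B : Polynomial F)
    (h : A ≠ 0 ∨ B ≠ 0) : A ^ 2 - Rb * B ^ 2 ≠ 0 := by
  intro h0
  have h1 : A ^ 2 = Rb * B ^ 2 := sub_eq_zero.1 h0
  have hR : Rb ≠ 0 := by
    rintro rfl
    simp at hodd
  by_cases hB : B = 0
  · subst hB
    have hA : A = 0 := by
      have : A ^ 2 = 0 := by rw [h1]; ring
      exact pow_eq_zero_iff (two_ne_zero) |>.1 this
    rcases h with h | h
    · exact h hA
    · exact h rfl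
  · have h2 := congrArg Polynomial.natDegree h1
    rw [Polynomial.natDegree_pow, Polynomial.natDegree_mul hR (pow_ne_zero 2 hB),
      Polynomial.natDegree_pow] at h2
    obtain ⟨r, hr⟩ := hodd
    omega

theorem nrm_deg {Rb : Polynomial F} (A B : Polynomial F) {m : ℕ} (hA : A.natDegree ≤ m)
    (hB : B = 0 ∨ 2 * B.natDegree + Rb.natDegree ≤ 2 * m) :
    (A ^ 2 - Rb * B ^ 2).natDegree ≤ 2 * m := by
  have h1 : (A ^ 2).natDegree ≤ 2 * m := by
    refine (Polynomial.natDegree_pow_le).trans ?_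
    omega
  have h2 : (Rb * B ^ 2).natDegree ≤ 2 * m := by
    rcases hB with hB | hB
    · subst hB; simp
    · refine (Polynomial.natDegree_mul_le).trans ?_
      have h4 : (B ^ 2).natDegree ≤ 2 * B.natDegree := Polynomial.natDegree_pow_le
      omega
  exact (Polynomial.natDegree_sub_le _ _).trans (max_le h1 h2)

end norm

theorem g_lead {F : Type} [Field F] [CharZero F] {β : Type} [Fintype β] [DecidableEq β]
    {R : Polynomial (HK F)} {Rb : Polynomial F} (hodd : Odd Rb.natDegree) {κ : ℝ} {a b s : β → ℝ}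
    {c : β → F} (hc : Function.Injective c) {xx yy U : β → HR F}
    (hT : ∀ i, Tb R Rb (a i) (b i) (s i) κ (c i) (xx i) (yy i) (U i)) {m : ℕ} {ω : ℝ} (hω : 0 < ω)
    (hsum : 2 * m + 1 ≤ ∑ i, (⌈ω / a i⌉₊ + ⌈ω / b i⌉₊)) (hs : ∀ i, ω ≤ s i)
    (A B : Polynomial (HK F)) (hne : A ≠ 0 ∨ B ≠ 0) (hA : A.natDegree ≤ m)
    (hB : B = 0 ∨ 2 * B.natDegree + Rb.natDegree ≤ 2 * m) :
    ∃ n : ℝ, (∀ i, Low (evA (xx i) A + evA (xx i) B * yy i) n) ∧
      (∃ i k j, cf (evA (xx i) A + evA (xx i) B * yy i) n k j ≠ 0) ∧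
      ∀ i k j, cf (evA (xx i) A + evA (xx i) B * yy i) n k j ≠ 0 →
        j = 0 ∧ a i * k < ω ∧ -(b i * k) < ω := by
  classical
  obtain ⟨c0, hcA, hcB, hc0⟩ := exists_min A B hne
  obtain ⟨G, hG⟩ : ∃ G : β → HR F, G = fun i => evA (xx i) A + evA (xx i) B * yy i := ⟨_, rfl⟩
  have hGi : ∀ i, evA (xx i) A + evA (xx i) B * yy i = G i := fun i => by rw [hG]
  simp only [hGi]
  have hMA : ∀ i, Mc (a i) (b i) (s i) c0 (evA (xx i) A) := fun i => evA_wedge hcA (hT i).mx
  have hMB : ∀ i, Mc (a i) (b i) (s i) c0 (evA (xx i) B) := fun i => evA_wedge hcB (hT i).mx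
  have hM : ∀ i, Mc (a i) (b i) (s i) c0 (G i) := by
    intro i
    rw [← hGi]
    refine (hMA i).add ?_
    have := (hMB i).mul (hT i).my
    rwa [add_zero] at this
  set N : Polynomial F := bar c0 A ^ 2 - Rb * bar c0 B ^ 2 with hN
  have hN0 : N ≠ 0 := nrm_ne hodd _ _ hc0
  have hNd : N.natDegree ≤ 2 * m := by
    refine nrm_deg _ _ ((natDegree_bar c0 A).trans hA) ?_
    rcases hB with hB | hB
    · left
      ext k
      rw [coeff_bar, hB]; simp
    · right
      have := natDegree_bar c0 B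
      omega
  have hprod : ∀ i, Ep (a i) c0 (G i) * Em (b i) c0 (G i) = phi (c i) N := by
    intro i
    obtain ⟨η, hη, hp, hm⟩ := (hT i).ey
    have hEp : Ep (a i) c0 (G i) = phi (c i) (bar c0 A) - phi (c i) (bar c0 B) * η := by
      have h1 := Ep_mul (hT i).ha (hT i).hb (hT i).hs (hMB i) (hT i).my
      rw [add_zero, hp, Ep_evA' (hT i).ha (hT i).hb (hT i).hs hcB (hT i).mx (hT i).ex] at h1
      rw [← hGi, Ep_add, h1, Ep_evA' (hT i).ha (hT i).hb (hT i).hs hcA (hT i).mx (hT i).ex]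
      ring
    have hEm : Em (b i) c0 (G i) = phi (c i) (bar c0 A) + phi (c i) (bar c0 B) * η := by
      have h1 := Em_mul (hT i).ha (hT i).hb (hT i).hs (hMB i) (hT i).my
      rw [add_zero, hm, Em_evA' (hT i).ha (hT i).hb (hT i).hs hcB (hT i).mx (hT i).em] at h1
      rw [← hGi, Em_add, h1, Em_evA' (hT i).ha (hT i).hb (hT i).hs hcA (hT i).mx (hT i).em]
    rw [hEp, hEm, hN, map_sub, map_mul, map_pow, map_pow]
    linear_combination (-(phi (c i) (bar c0 B)) ^ 2) * hη
  -- a coefficient at a small level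
  have hlow : ∃ i n k j, n < c0 + ω ∧ cf (G i) n k j ≠ 0 := by
    by_contra hcon
    push Not at hcon
    have hdiv : ∀ i, (Polynomial.X - Polynomial.C (c i)) ^ (⌈ω / a i⌉₊ + ⌈ω / b i⌉₊) ∣ N := by
      intro i
      apply dvd_of_phi
      rw [← hprod, pow_add]
      refine mul_dvd_mul ?_ ?_
      · rw [PowerSeries.X_pow_dvd_iff]
        intro k hk
        rw [Nat.lt_ceil, lt_div_iff₀ (hT i).ha] at hk
        simp only [Ep, PowerSeries.coeff_mk]
        refine hcon i _ _ _ ?_
        linarith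
      · rw [PowerSeries.X_pow_dvd_iff]
        intro k hk
        rw [Nat.lt_ceil, lt_div_iff₀ (hT i).hb] at hk
        simp only [Em, PowerSeries.coeff_mk]
        refine hcon i _ _ _ ?_
        linarith
    have hcop : ((Finset.univ : Finset β) : Set β).Pairwise (Function.onFun IsCoprime
        (fun i => (Polynomial.X - Polynomial.C (c i)) ^ (⌈ω / a i⌉₊ + ⌈ω / b i⌉₊))) := by
      intro i _ j _ hij
      exact (Polynomial.pairwise_coprime_X_sub_C hc hij).pow
    have hdvd := Finset.prod_dvd_of_coprime hcop fun i _ => hdiv i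
    have hdeg := Polynomial.natDegree_le_of_dvd hdvd hN0
    rw [Polynomial.natDegree_prod_of_monic _ _ fun i _ => (Polynomial.monic_X_sub_C (c i)).pow _]
      at hdeg
    simp only [Polynomial.natDegree_pow, Polynomial.natDegree_X_sub_C, mul_one] at hdeg
    omega
  obtain ⟨i0, n0, k0, j0, hn0, hcf0⟩ := hlow
  have hcoeff : ∀ i n k j, cf (G i) n k j ≠ 0 → (G i).coeff n ≠ 0 := by
    intro i n k j h h2
    apply h
    unfold cf
    rw [h2]; simp
  set T : Finset β := Finset.univ.filter fun i => G i ≠ 0 with hTdef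
  have hi0 : i0 ∈ T := by
    rw [hTdef, Finset.mem_filter]
    refine ⟨Finset.mem_univ _, fun h => hcf0 ?_⟩
    rw [h, cf_zero]
  obtain ⟨i1, hi1, hmin⟩ := Finset.exists_min_image T (fun i => (G i).order) ⟨i0, hi0⟩
  have hG1 : G i1 ≠ 0 := (Finset.mem_filter.1 hi1).2
  have hnlt : (G i1).order < c0 + ω := by
    refine lt_of_le_of_lt (hmin i0 hi0) (lt_of_le_of_lt ?_ hn0)
    exact HahnSeries.order_le_of_coeff_ne_zero (hcoeff _ _ _ _ hcf0)
  refine ⟨(G i1).order, ?_, ?_, ?_⟩
  · intro i n hn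
    by_cases hi : G i = 0
    · rw [hi]; simp
    · have : i ∈ T := by
        rw [hTdef, Finset.mem_filter]
        exact ⟨Finset.mem_univ _, hi⟩
      exact HahnSeries.coeff_eq_zero_of_lt_order (lt_of_lt_of_le hn (hmin i this))
  · by_contra hcon
    push Not at hcon
    apply HahnSeries.coeff_order_eq_zero.not.2 hG1
    ext ⟨k, j⟩
    exact hcon i1 k j
  · intro i k j hkj
    obtain ⟨g1, g2, g3⟩ := hM i _ _ _ hkj
    have ha := (hT i).ha
    have hb := (hT i).hb
    have hsi := hs i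
    have hspos := (hT i).hs
    have hj : j = 0 := by
      by_contra hj
      have hj1 : (1 : ℝ) ≤ j := by
        have : 1 ≤ j := by omega
        exact_mod_cast this
      have h5 : s i ≤ s i * j := by nlinarith
      have h6 : a i * k < 0 := by linarith
      have h7 : -(b i * k) < 0 := by linarith
      have h8 : (k : ℝ) < 0 := by
        by_contra h9
        have := mul_nonneg ha.le (not_lt.1 h9)
        linarith
      have h9 : b i * (k : ℝ) < 0 := mul_neg_of_pos_of_neg hb h8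
      linarith
    subst hj
    push_cast at g2 g3
    refine ⟨rfl, ?_, ?_⟩ <;> linarith

end Pool.Agent.TH236.MN
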